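import Mathlib.Data.Nat.Basic

/-! A file of the lead used to check the shipping script. -/

namespace Pool.Agent.W0.Toy

theorem two_add_two : 2 + 2 = 4 := rfl

end Pool.Agent.W0.Toy
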